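import Pool.Agent.Y719.EL.Mod

/-!
# The moduli of the boundary values decide about continuation and determine `ρ(A_p)`

`G = GSp(2n)`.  The maximal torus of the L-group `GSpin(2n+1, ℂ)` is `(ℂˣ)^(n+1)`.  A
finite-dimensional representation `ρ` is given by the multiset of its weights, that is of integer
vectors `μ`, and the Satake class of `π_p` by a point `A p` of the torus; then
`det(1 - ρ(A_p) p^(-s)) = ∏_μ (1 - μ(A_p) p^(-s))`.

We normalise by a real number `w` such that `|μ(A_p)| ≤ p^(w + δ)` with `δ < 1/2` and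
`∑_{p < x} |tr ρ(A_p)|² p^(-2w) log p = O(x)` (a bound of Ramanujan or of Rankin-Selberg type; for
example `w = δ = 0` if `π` is tempered with unitary central character).  Then `L_S(s, π, ρ)`
converges for `Re s > 1 + w`, and nothing is known in general about it on the left of the edge
`Re s = 1 + w`.  The theorem says that the absolute values of its boundary values, on a set of
positive upper density of the edge, are enough to recognise it as a product of powers of Euler
products of automorphic type (for example of cuspidal automorphic representations of `GL_N`), and so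
to continue it, and that they determine the eigenvalues of `ρ(A_p)` for all `p ∉ S`.
-/

set_option autoImplicit false

namespace Pool.Agent.Results.MP_eea520_nt.BoundaryModuli

open Filter Topology MeasureTheory Polynomial

/-- The value at the point `x` of the torus of the character with exponents `μ`. -/
noncomputable def weight {n : ℕ} (x : Fin (n + 1) → ℂ) (μ : Fin (n + 1) → ℤ) : ℂ :=
  ∏ i, x i ^ μ i

/-- The data of an Euler product `L_S(s, π, ρ)`: the rank `n`, the finite set `S`, the points `A p` of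
the torus of `GSpin(2n+1, ℂ)`, the weights of `ρ`, and the normalisation `w`, with the bounds. -/
structure Datum where
  /-- the rank -/
  n : ℕ
  /-- the omitted primes -/
  S : Finset ℕ
  /-- the Satake parameters -/
  A : ℕ → Fin (n + 1) → ℂ
  /-- they are points of the torus -/
  torus : ∀ p : ℕ, p.Prime → p ∉ S → ∀ i, A p i ≠ 0
  /-- the weights of the representation of the L-group -/
  ρ : Multiset (Fin (n + 1) → ℤ)
  /-- the normalisation -/
  w : ℝ
  /-- the exponent in the pointwise bound -/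
  δ : ℝ
  hδ : δ < 1 / 2
  /-- the pointwise bound -/
  bound : ∀ p : ℕ, p.Prime → p ∉ S → ∀ μ ∈ ρ, ‖weight (A p) μ‖ ≤ (p : ℝ) ^ (w + δ)
  /-- the constant in the mean square bound -/
  C : ℝ
  /-- the mean square bound -/
  meanSquare : ∀ x : ℕ, ∑ p ∈ (Finset.range x).filter (fun p => p.Prime ∧ p ∉ S),
    ‖(ρ.map fun μ => weight (A p) μ).sum‖ ^ 2 * (p : ℝ) ^ (-2 * w) * Real.log p ≤ C * x

/-- The factor at the prime `p` of `L_S(s, π, ρ)`: it is `1` for `p ∈ S` and
`det(1 - ρ(A_p) p^(-s))⁻¹` for `p ∉ S`. -/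
noncomputable def factor (D : Datum) (s : ℂ) (p : ℕ) : ℂ :=
  if p ∈ D.S then 1 else ((D.ρ.map fun μ => 1 - weight (D.A p) μ * (p : ℂ) ^ (-s)).prod)⁻¹

/-- The Euler product `L_S(s, π, ρ)`. -/
noncomputable def LS (D : Datum) (s : ℂ) : ℂ :=
  ∏' p : Nat.Primes, factor D s p

/-- The limit `|L_S(1 + w + iτ, π, ρ)|` of `|L_S(1 + w + iτ + σ, π, ρ)|` for `σ → 0`, `σ > 0`. -/
noncomputable def edgeAbs (D : Datum) (τ : ℝ) : ℝ :=
  limUnder (𝓝[>] (0 : ℝ)) fun σ : ℝ => ‖LS D (1 + σ + τ * Complex.I + D.w)‖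

/-- The normalised eigenvalues `μ(A_p) p^(-w)` of `ρ(A_p)`. -/
noncomputable def eigenvalues (D : Datum) (p : ℕ) : Multiset ℂ :=
  D.ρ.map fun μ => weight (D.A p) μ * (((p : ℝ) ^ (-D.w) : ℝ) : ℂ)

/-- The Euler product `∏ P_p(p^{-s})⁻¹` over the prime numbers is of automorphic type: the polynomials
`P_p` are not `0`; for almost all `p` they are `1` at `0`, of degree at most `D`, without zeros in
`|z| < p^{-θ}` for some `θ < 1/2`; and `∑_{p < x} |P_p'(0)|² log p ≤ C x`. -/
def AutomorphicType (P : ℕ → ℂ[X]) : Prop :=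
  ∃ (D : ℕ) (θ C : ℝ) (E : Finset ℕ), (∀ p : ℕ, p.Prime → P p ≠ 0) ∧ θ < 1 / 2 ∧
    (∀ p : ℕ, p.Prime → p ∉ E → (P p).coeff 0 = 1 ∧ (P p).natDegree ≤ D ∧
      ∀ z : ℂ, (P p).eval z = 0 → (p : ℝ) ^ (-θ) ≤ ‖z‖) ∧
    ∀ x : ℕ, ∑ p ∈ (Finset.range x).filter Nat.Prime, ‖(P p).coeff 1‖ ^ 2 * Real.log p ≤ C * x

/-- The Euler factor `P_p(p^{-s})⁻¹`. -/
noncomputable def fac (P : ℕ → ℂ[X]) (p : ℕ) (s : ℂ) : ℂ := ((P p).eval ((p : ℂ) ^ (-s)))⁻¹

/-- The Euler product `Λ(s) = ∏ P_p(p^{-s})⁻¹` over the prime numbers. -/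
noncomputable def LQ (P : ℕ → ℂ[X]) (s : ℂ) : ℂ := ∏' p : Nat.Primes, fac P p s

/-- The limit `|Λ(1 + iτ)|` of `|Λ(1 + σ + iτ)|` for `σ → 0`, `σ > 0`. -/
noncomputable def eabs (P : ℕ → ℂ[X]) (τ : ℝ) : ℝ :=
  limUnder (𝓝[>] (0 : ℝ)) fun σ : ℝ => ‖LQ P (1 + σ + τ * Complex.I)‖

/-- `P` is good at `q`: it is `1` at `0` and has no zeros in `|z| ≤ 1/q`. -/
def GoodAt (P : ℂ[X]) (q : ℕ) : Prop := P.coeff 0 = 1 ∧ ∀ z : ℂ, P.eval z = 0 → 1 / (q : ℝ) < ‖z‖

/-- The values of `f` are concentrated: there is `δ > 0` such that for every `ε > 0` there are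
arbitrarily large `T` and a real number `x` with `|f - x| < ε` on a subset of `(0, T]` of measure at
least `δ T`. -/
def Concentrated (f : ℝ → ℝ) : Prop :=
  ∃ δ : ℝ, 0 < δ ∧ ∀ ε : ℝ, 0 < ε → ∃ᶠ T : ℝ in atTop, ∃ x : ℝ,
    ENNReal.ofReal (δ * T) ≤ volume {τ | τ ∈ Set.Ioc 0 T ∧ |f τ - x| < ε}

/-- The function has a meromorphic continuation to the plane from `Re s > σ₀`. -/
def Continues (L : ℂ → ℂ) (σ₀ : ℝ) : Prop :=
  ∃ F : ℂ → ℂ, MeromorphicOn F Set.univ ∧ ∀ s : ℂ, σ₀ < s.re → F s = L s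

/-- **The moduli of the boundary values.**
1. For almost all real `τ` the limit `|L_S(1 + w + iτ, π, ρ)|` exists and is positive.
2. Let `Λ_k(s)` be finitely many Euler products of automorphic type, with the polynomials `P k`, `m_k`
   integers and `t_k` real numbers.  Suppose that the function
   `log |L_S(1 + w + iτ, π, ρ)| - ∑ m_k log |Λ_k(1 + i(τ + t_k))|` is concentrated, for example
   constant on a set of positive upper density.  Then the Euler factors of `L_S(s + w, π, ρ)` and of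
   `∏_k Λ_k(s + i t_k)^{m_k}` are equal at all primes `q ∉ S` at which the `Λ_k` are good; and if the
   `Λ_k` have meromorphic continuations to the plane, then `L_S(s, π, ρ)` has one.
3. Let `L_S(s, π, ρ)` and `L_{S'}(s, π', ρ')` be two such functions and suppose that
   `log |L_S(1 + w + iτ, π, ρ)| - log |L_{S'}(1 + w' + iτ, π', ρ')|` is concentrated, for example that
   the moduli of the boundary values are proportional on a set of positive upper density of the edge.
   Then `p^{-w} ρ(A_p)` and `p^{-w'} ρ'(A'_p)` have the same eigenvalues, with multiplicities, for all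
   `p ∉ S ∪ S'`. -/
theorem result :
    (∀ D : Datum, ∀ᵐ τ : ℝ, 0 < edgeAbs D τ ∧
      Tendsto (fun σ : ℝ => ‖LS D (1 + σ + τ * Complex.I + D.w)‖) (𝓝[>] 0) (𝓝 (edgeAbs D τ))) ∧
    (∀ (D : Datum) (κ : Type) [Fintype κ] (P : κ → ℕ → ℂ[X]), (∀ k, AutomorphicType (P k)) →
      ∀ (m : κ → ℤ) (t : κ → ℝ),
        Concentrated (fun τ => Real.log (edgeAbs D τ) -
          ∑ k, m k * Real.log (eabs (P k) (τ + t k))) →
        (∀ q : ℕ, q.Prime → q ∉ D.S → (∀ k, GoodAt (P k q) q) → ∀ s : ℂ, 1 ≤ s.re →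
          factor D (s + D.w) q = ∏ k, fac (P k) q (s + t k * Complex.I) ^ m k) ∧
        ((∀ k, Continues (LQ (P k)) 1) → Continues (LS D) (1 + D.w))) ∧
    (∀ D D' : Datum,
      Concentrated (fun τ => Real.log (edgeAbs D τ) - Real.log (edgeAbs D' τ)) →
      ∀ q : ℕ, q.Prime → q ∉ D.S → q ∉ D'.S → eigenvalues D q = eigenvalues D' q) := by
  have hE : ∀ D : Datum, Pool.Agent.Y774.MD.IsEuler (Pool.Agent.Y719.EL.M.PM D.S (eigenvalues D))
      (Multiset.card D.ρ) D.δ D.C D.S := by
    intro D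
    refine Pool.Agent.Y719.EL.M.PM_euler D.hδ (fun p _ _ => ?_) (fun p hp hpS z hz => ?_)
      (fun x => le_trans (le_of_eq (Finset.sum_congr rfl fun p hp => ?_)) (D.meanSquare x))
    · unfold eigenvalues
      rw [Multiset.card_map]
    · unfold eigenvalues at hz
      rw [Multiset.mem_map] at hz
      obtain ⟨μ, hμ, rfl⟩ := hz
      have hp0 : (0 : ℝ) < p := by exact_mod_cast hp.pos
      rw [norm_mul, Complex.norm_real, Real.norm_of_nonneg (Real.rpow_nonneg hp0.le _)]
      calc ‖weight (D.A p) μ‖ * (p : ℝ) ^ (-D.w) ≤ (p : ℝ) ^ (D.w + D.δ) * (p : ℝ) ^ (-D.w) :=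
            mul_le_mul_of_nonneg_right (D.bound p hp hpS μ hμ) (Real.rpow_nonneg hp0.le _)
        _ = (p : ℝ) ^ D.δ := by
            rw [← Real.rpow_add hp0]
            congr 1
            ring
    · rw [Finset.mem_filter] at hp
      have hp0 : (0 : ℝ) < p := by exact_mod_cast hp.2.1.pos
      unfold eigenvalues
      rw [Multiset.sum_map_mul_right, norm_mul, Complex.norm_real,
        Real.norm_of_nonneg (Real.rpow_nonneg hp0.le _), mul_pow, ← Real.rpow_natCast (_ ^ (-D.w)),
        ← Real.rpow_mul hp0.le]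
      congr 3
      push_cast
      ring
  have hfac : ∀ (D : Datum) (p : ℕ), p.Prime → ∀ s : ℂ, factor D (s + D.w) p =
      Pool.Agent.Y774.MD.fac (Pool.Agent.Y719.EL.M.PM D.S (eigenvalues D)) p s := by
    intro D p hp s
    have hp0 : (0 : ℝ) < p := by exact_mod_cast hp.pos
    have hpc : (p : ℂ) ≠ 0 := by exact_mod_cast hp.ne_zero
    unfold factor
    split_ifs with h
    · unfold Pool.Agent.Y774.MD.fac Pool.Agent.Y719.EL.M.PM
      rw [if_pos h]
      simp
    · rw [Pool.Agent.Y719.EL.M.fac_PM h]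
      unfold eigenvalues
      rw [Multiset.map_map]
      congr 2
      refine Multiset.map_congr rfl fun μ _ => ?_
      simp only [Function.comp_apply]
      congr 1
      have h1 : (p : ℂ) ^ (-(s + D.w)) = (((p : ℝ) ^ (-D.w) : ℝ) : ℂ) * (p : ℂ) ^ (-s) := by
        rw [Complex.ofReal_cpow hp0.le, neg_add, Complex.cpow_add _ _ hpc, mul_comm]
        push_cast
        rfl
      rw [h1]
      ring
  have hLS : ∀ (D : Datum) (s : ℂ), LS D (s + D.w) =
      Pool.Agent.Y774.MD.LQ (Pool.Agent.Y719.EL.M.PM D.S (eigenvalues D)) s := by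
    intro D s
    exact tprod_congr fun p => hfac D p p.2 s
  have heabs : ∀ (D : Datum) (τ : ℝ), edgeAbs D τ =
      Pool.Agent.Y774.MD.eabs (Pool.Agent.Y719.EL.M.PM D.S (eigenvalues D)) τ := by
    intro D τ
    unfold edgeAbs Pool.Agent.Y774.MD.eabs
    simp only [hLS]
  have hA : ∀ P : ℕ → ℂ[X], AutomorphicType P →
      ∃ D θ C E, Pool.Agent.Y774.MD.IsEuler P D θ C E := by
    rintro P ⟨D, θ, C, E, h1, h2, h3, h4⟩
    exact ⟨D, θ, C, E, h1, h2, h3, h4⟩
  refine ⟨fun D => ?_, fun D κ _ P hP m t hc => ⟨fun q hq hqS hg s hs => ?_, fun hcont => ?_⟩,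
    fun D D' hc q hq hqS hqS' => ?_⟩
  · filter_upwards [(hE D).edge'] with τ hτ
    rw [heabs]
    refine ⟨hτ.1.1, ?_⟩
    simp only [hLS]
    exact hτ.1.2
  · have hc' : Pool.Agent.Y774.MD.Concentrated (Pool.Agent.Y774.MD.cmp
        (Pool.Agent.Y719.EL.M.PM D.S (eigenvalues D)) P m t) := by
      refine cast (congrArg Pool.Agent.Y774.MD.Concentrated ?_) hc
      funext τ
      unfold Pool.Agent.Y774.MD.cmp
      rw [heabs]
      rfl
    rw [hfac D q hq]
    exact Pool.Agent.Y774.MD.factors ⟨_, _, _, _, hE D⟩ (fun k => hA _ (hP k)) hc' hq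
      ((hE D).goodAt hq hqS) hg hs
  · have hc' : Pool.Agent.Y774.MD.Concentrated (Pool.Agent.Y774.MD.cmp
        (Pool.Agent.Y719.EL.M.PM D.S (eigenvalues D)) P m t) := by
      refine cast (congrArg Pool.Agent.Y774.MD.Concentrated ?_) hc
      funext τ
      unfold Pool.Agent.Y774.MD.cmp
      rw [heabs]
      rfl
    obtain ⟨F, hF, hFL⟩ := Pool.Agent.Y774.MD.continuation ⟨_, _, _, _, hE D⟩
      (fun k => hA _ (hP k)) hc' hcont
    refine ⟨fun s => F (s - D.w), fun s _ => ?_, fun s hs => ?_⟩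
    · exact (hF (s - D.w) (Set.mem_univ _)).comp_analyticAt (g := fun s : ℂ => s - D.w)
        (by fun_prop)
    · have h1 : 1 < (s - (D.w : ℂ)).re := by
        rw [Complex.sub_re, Complex.ofReal_re]
        linarith
      simp only
      rw [hFL _ h1, ← hLS, sub_add_cancel]
  · have hc' : Pool.Agent.Y774.MD.Concentrated (Pool.Agent.Y774.MD.cmp
        (Pool.Agent.Y719.EL.M.PM D.S (eigenvalues D))
        (fun _ : Unit => Pool.Agent.Y719.EL.M.PM D'.S (eigenvalues D')) (fun _ => 1)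
        (fun _ => 0)) := by
      refine cast (congrArg Pool.Agent.Y774.MD.Concentrated ?_) hc
      funext τ
      unfold Pool.Agent.Y774.MD.cmp
      rw [heabs, heabs]
      simp
    have h1 : ∀ s : ℂ, 1 ≤ s.re →
        Pool.Agent.Y774.MD.fac (Pool.Agent.Y719.EL.M.PM D.S (eigenvalues D)) q s =
        Pool.Agent.Y774.MD.fac (Pool.Agent.Y719.EL.M.PM D'.S (eigenvalues D')) q s := by
      intro s hs
      have h2 := Pool.Agent.Y774.MD.factors ⟨_, _, _, _, hE D⟩ (fun _ => ⟨_, _, _, _, hE D'⟩) hc'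
        hq ((hE D).goodAt hq hqS) (fun _ => (hE D').goodAt hq hqS') hs
      simpa using h2
    have h3 : Pool.Agent.Y719.EL.M.PM D.S (eigenvalues D) q =
        Pool.Agent.Y719.EL.M.PM D'.S (eigenvalues D') q :=
      Pool.Agent.Y719.EL.M.eq_of_eval hq fun s hs => inv_injective (h1 s hs)
    unfold Pool.Agent.Y719.EL.M.PM at h3
    rw [if_neg hqS, if_neg hqS'] at h3
    have hne : ∀ E : Datum, q ∉ E.S → ∀ z ∈ eigenvalues E q, z ≠ 0 := by
      intro E hE' z hz
      unfold eigenvalues at hz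
      rw [Multiset.mem_map] at hz
      obtain ⟨μ, _, rfl⟩ := hz
      have hq0 : (0 : ℝ) < q := by exact_mod_cast hq.pos
      refine mul_ne_zero ?_ (by exact_mod_cast (Real.rpow_pos_of_pos hq0 _).ne')
      exact Finset.prod_ne_zero_iff.2 fun i _ => zpow_ne_zero _ (E.torus q hq hE' i)
    exact Pool.Agent.Y719.EL.M.inj (hne D hqS) (hne D' hqS') h3

end Pool.Agent.Results.MP_eea520_nt.BoundaryModuli
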