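import Pool.Agent.Y719.EL.Cont

/-!
# Continuation or transcendence on the edge, for all `L_S(s, π × χ, ρ)` and their products

`G = GSp(2n)`.  The maximal torus of the L-group `GSpin(2n+1, ℂ)` is `(ℂˣ)^(n+1)`.  A
finite-dimensional representation `ρ` is given by the multiset of its weights, that is of integer
vectors `μ`, and the Satake class of `π_p` by a point `A p` of the torus; then
`det(1 - ρ(A_p) p^(-s)) = ∏_μ (1 - μ(A_p) p^(-s))`.  Nothing else is assumed about the multiset and
about the points `A p`, so the theorem holds in particular for all automorphic representations.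
If `|μ(A_p)| ≤ p^θ` for all weights `μ`, then the Euler product converges for `Re s > 1 + θ`; for
example `θ = 0` if `π` is tempered with unitary central character.

The theorem treats a countable family of such Euler products, for example all `L_S(s, π × χ, ρ)` with
all `ρ` and all Dirichlet characters `χ` for countably many `π`, shifted so that each of them
converges for `Re s > 1`, and all finite products of their integral powers.  At almost every point
`1 + iτ` of the edge one of two things happens for every such product: either it continues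
holomorphically across this point, or its boundary value at this point is transcendental over the
field generated by the values of any countable family of analytic functions given in advance and by
the boundary values of all those products that do continue across this point.
-/

set_option autoImplicit false

namespace Pool.Agent.Results.MP_eea520_nt.ContinuationOrTranscendence

open MeasureTheory Filter Topology

/-- The value at the point `x` of the torus of the character with exponents `μ`. -/
noncomputable def weight {n : ℕ} (x : Fin (n + 1) → ℂ) (μ : Fin (n + 1) → ℤ) : ℂ :=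
  ∏ i, x i ^ μ i

/-- The data of an Euler product `L_S(s, π × χ, ρ)`: the rank `n`, the finite set `S`, the points
`A p` of the torus of `GSpin(2n+1, ℂ)`, the weights of `ρ`, a Dirichlet character `χ`, and a bound
`p^θ` for the absolute values of the eigenvalues of `ρ(A_p)`, `p ∉ S`. -/
structure Datum where
  /-- the rank -/
  n : ℕ
  /-- the omitted primes -/
  S : Finset ℕ
  /-- the Satake parameters -/
  A : ℕ → Fin (n + 1) → ℂ
  /-- the weights of the representation of the L-group -/
  ρ : Multiset (Fin (n + 1) → ℤ)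
  /-- the modulus of the character -/
  q : ℕ
  /-- the character -/
  χ : DirichletCharacter ℂ q
  /-- the exponent in the bound -/
  θ : ℝ
  /-- the bound -/
  bound : ∀ p : ℕ, p.Prime → p ∉ S → ∀ μ ∈ ρ, ‖weight (A p) μ‖ ≤ (p : ℝ) ^ θ

/-- The factor at the prime `p` of `L_S(s, π × χ, ρ)`: it is `1` for `p ∈ S` and
`det(1 - χ(p) ρ(A_p) p^(-s))⁻¹` for `p ∉ S`. -/
noncomputable def factor (D : Datum) (s : ℂ) (p : ℕ) : ℂ :=
  if p ∈ D.S then 1 else
    ((D.ρ.map fun μ => 1 - D.χ p * weight (D.A p) μ * (p : ℂ) ^ (-s)).prod)⁻¹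

/-- The Euler product `L_S(s, π × χ, ρ)`. -/
noncomputable def LS (D : Datum) (s : ℂ) : ℂ :=
  ∏' p : Nat.Primes, factor D s p

/-- The product of the powers, with exponents `m i`, of the functions
`L_{S_i}(s + θ_i, π_i × χ_i, ρ_i)`. -/
noncomputable def product {ι : Type} (D : ι → Datum) (m : ι →₀ ℤ) (s : ℂ) : ℂ :=
  ∏ i ∈ m.support, LS (D i) (s + (D i).θ) ^ m i

/-- The point `1 + iτ`. -/
noncomputable def edge (τ : ℝ) : ℂ := 1 + τ * Complex.I

/-- The angle `|s - (1 + iτ)| ≤ K (Re s - 1)` in `Re s > 1`. -/
def angle (τ K : ℝ) : Set ℂ := {s : ℂ | 1 < s.re ∧ ‖s - edge τ‖ ≤ K * (s.re - 1)}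

/-- `f`, given in `Re s > 1`, continues holomorphically to a neighbourhood of `1 + iτ`: near this
point it agrees, for `Re s > 1`, with a function analytic there. -/
def Continues (f : ℂ → ℂ) (τ : ℝ) : Prop :=
  ∃ φ : ℂ → ℂ, AnalyticAt ℂ φ (edge τ) ∧ ∀ᶠ s in 𝓝 (edge τ), 1 < s.re → f s = φ s

/-- The values at `s` of the functions in `𝒜` which are analytic at `s`. -/
def values (𝒜 : Set (ℂ → ℂ)) (s : ℂ) : Set ℂ :=
  {z : ℂ | ∃ g ∈ 𝒜, AnalyticAt ℂ g s ∧ g s = z}

/-- **Continuation or transcendence.**  Let `D i` be countably many data.  There are boundary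
functions `l m`, one for each finitely supported vector `m` of integers, such that

* for all real `τ` outside a set of Hausdorff dimension `0`, for all `m`, the number `l m τ` is not
  zero and `product D m s` tends to it as `s` tends to `1 + iτ` in any angle in `Re s > 1`;
* for every countable set `𝒜` of functions, for almost every real `τ`, for all `m`: either
  `product D m` continues holomorphically to a neighbourhood of `1 + iτ`, or `l m τ` is
  transcendental over the field generated over `ℚ` by the values `g(1 + iτ)` of all functions `g` in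
  `𝒜` which are analytic at `1 + iτ` and by the boundary values `l m' τ` of all the products
  `product D m'` which continue holomorphically to a neighbourhood of `1 + iτ`. -/
theorem result {ι : Type} [Countable ι] (D : ι → Datum) :
    ∃ l : (ι →₀ ℤ) → ℝ → ℂ,
      (∃ N : Set ℝ, dimH N = 0 ∧ ∀ τ : ℝ, τ ∉ N → ∀ m, l m τ ≠ 0 ∧ ∀ K : ℝ,
        Tendsto (product D m) (𝓝[angle τ K] (edge τ)) (𝓝 (l m τ))) ∧
      ∀ 𝒜 : Set (ℂ → ℂ), 𝒜.Countable → ∀ᵐ τ : ℝ, ∀ m,
        Continues (product D m) τ ∨
        Transcendental (IntermediateField.adjoin ℚ (values 𝒜 (edge τ) ∪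
          {z : ℂ | ∃ m', Continues (product D m') τ ∧ l m' τ = z})) (l m τ) := by
  set b : ι → Pool.Agent.TH339.MP.PP → ℂ := fun i =>
    Pool.Agent.TH339.MP.bα (Pool.Agent.Y719.EL.rt (D i).A (D i).ρ (D i).χ (D i).θ) (D i).S with hbdef
  set N : ι → ℝ := fun i => ((D i).ρ.toList.length : ℝ) with hN
  have hb : ∀ i x, ‖b i x‖ ≤ N i / (x.2 + 1 : ℕ) := fun i x =>
    Pool.Agent.TH339.MP.norm_bα
      (fun p hp hS j => Pool.Agent.Y719.EL.norm_rt (D i).bound p hp hS j) x
  have hP : ∀ (m : ι →₀ ℤ) (s : ℂ), 1 < s.re →
      Complex.exp (Pool.Agent.TH339.MP.FF (Pool.Agent.Y719.EL.cb b m) s) = product D m s := by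
    intro m s hs
    rw [Pool.Agent.Y719.EL.exp_cb b hb m hs]
    refine Finset.prod_congr rfl fun i _ => ?_
    have h1 := Pool.Agent.Y719.EL.LS_eq (χ := (D i).χ) (D i).bound hs
    have h2 : Complex.exp (Pool.Agent.TH339.MP.FF (b i) s) = LS (D i) (s + (D i).θ) := h1.symm
    rw [← h2]
  have hC : ∀ (m : ι →₀ ℤ) (τ : ℝ),
      Pool.Agent.TH345.ET.Cont (Pool.Agent.Y719.EL.cb b m) (fun _ => 1) τ ↔
        Continues (product D m) τ := by
    intro m τ
    have h1 : ∀ s : ℂ, (1 < s.re → (fun _ : ℂ => (1 : ℂ)) s *
        Complex.exp (Pool.Agent.TH339.MP.FF (Pool.Agent.Y719.EL.cb b m) s) = product D m s) := by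
      intro s hs
      rw [one_mul, hP m s hs]
    constructor
    · rintro ⟨φ, hφ, hev⟩
      refine ⟨φ, hφ, ?_⟩
      filter_upwards [hev] with s hs hs1
      rw [← h1 s hs1, hs hs1]
    · rintro ⟨φ, hφ, hev⟩
      refine ⟨φ, hφ, ?_⟩
      filter_upwards [hev] with s hs hs1
      rw [h1 s hs1, hs hs1]
  refine ⟨Pool.Agent.Y719.EL.lm b,
    ⟨Pool.Agent.Y719.EL.exc b, Pool.Agent.Y719.EL.dim_exc b hb, fun τ hτ m =>
      ⟨Pool.Agent.Y719.EL.lm_ne b m τ, fun K => ?_⟩⟩, fun 𝒜 hA => ?_⟩
  · refine (Pool.Agent.Y719.EL.lm_angle b hb hτ m K).congr' ?_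
    filter_upwards [self_mem_nhdsWithin] with s hs
    exact hP m s hs.1
  · filter_upwards [Pool.Agent.Y719.EL.main b hb hA] with τ hτ m
    have h2 := hτ m
    rw [hC] at h2
    have hset : {z : ℂ | ∃ m' : ι →₀ ℤ,
        Pool.Agent.TH345.ET.Cont (Pool.Agent.Y719.EL.cb b m') (fun _ => 1) τ ∧
          Pool.Agent.Y719.EL.lm b m' τ = z} =
        {z : ℂ | ∃ m', Continues (product D m') τ ∧ Pool.Agent.Y719.EL.lm b m' τ = z} := by
      ext z
      exact exists_congr fun m' => and_congr_left fun _ => hC m' τ
    rw [hset] at h2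
    exact h2

end Pool.Agent.Results.MP_eea520_nt.ContinuationOrTranscendence
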