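import Pool.Agent.Y719.EL.Ord

/-!
# Zeros and poles on the edge, over all Dirichlet characters and all heights

`G = GSp(2n)`.  The maximal torus of the L-group `GSpin(2n+1, ℂ)` is `(ℂˣ)^(n+1)`.  A
finite-dimensional representation `ρ` is given by the multiset of its weights, that is of integer
vectors `μ`, and the Satake class of `π_p` by a point `A p` of the torus; then
`det(1 - ρ(A_p) p^(-s)) = ∏_μ (1 - μ(A_p) p^(-s))`.  Nothing else is assumed about the multiset and
about the points `A p`, so the theorem holds in particular for all automorphic representations.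
If `|μ(A_p)| ≤ p^θ` for all weights `μ`, then the Euler product converges for `Re s > 1 + θ`; for
example `θ = 0` if `π` is tempered with unitary central character.

We consider one function `L_S(s + θ, π × χ, ρ)`, or more generally a product of integral powers of
finitely many of them, together with all its twists by Dirichlet characters `χ`, at all points
`1 + iτ` of the edge of convergence.
-/

set_option autoImplicit false

namespace Pool.Agent.Results.MP_eea520_nt.EdgeOrdersAllTwists

open Filter Topology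

/-- The value at the point `x` of the torus of the character with exponents `μ`. -/
noncomputable def weight {n : ℕ} (x : Fin (n + 1) → ℂ) (μ : Fin (n + 1) → ℤ) : ℂ :=
  ∏ i, x i ^ μ i

/-- The data of the Euler products `L_S(s, π × χ, ρ)`: the rank `n`, the finite set `S`, the points
`A p` of the torus of `GSpin(2n+1, ℂ)`, the weights of `ρ`, and a bound `p^θ` for the absolute
values of the eigenvalues of `ρ(A_p)`, `p ∉ S`. -/
structure Datum where
  /-- the rank -/
  n : ℕ
  /-- the omitted primes -/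
  S : Finset ℕ
  /-- the Satake parameters -/
  A : ℕ → Fin (n + 1) → ℂ
  /-- the weights of the representation of the L-group -/
  ρ : Multiset (Fin (n + 1) → ℤ)
  /-- the exponent in the bound -/
  θ : ℝ
  /-- the bound -/
  bound : ∀ p : ℕ, p.Prime → p ∉ S → ∀ μ ∈ ρ, ‖weight (A p) μ‖ ≤ (p : ℝ) ^ θ

/-- A Dirichlet character `χ` and a height `τ`. -/
structure Twist where
  /-- the modulus -/
  q : ℕ
  /-- the modulus is positive -/
  hq : q ≠ 0
  /-- the character -/
  χ : DirichletCharacter ℂ q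
  /-- the height -/
  τ : ℝ

/-- The heights are equal and the characters coincide at the integers prime to both moduli, that is,
they are induced by the same primitive character. -/
def Twist.Same (x y : Twist) : Prop :=
  x.τ = y.τ ∧ ∀ a : ℕ, a.Coprime (x.q * y.q) → x.χ a = y.χ a

/-- The factor at the prime `p` of `L_S(s, π × χ, ρ)`: it is `1` for `p ∈ S` and
`det(1 - χ(p) ρ(A_p) p^(-s))⁻¹` for `p ∉ S`. -/
noncomputable def factor (D : Datum) {q : ℕ} (χ : DirichletCharacter ℂ q) (s : ℂ) (p : ℕ) : ℂ :=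
  if p ∈ D.S then 1 else
    ((D.ρ.map fun μ => 1 - χ p * weight (D.A p) μ * (p : ℂ) ^ (-s)).prod)⁻¹

/-- The Euler product `L_S(s, π × χ, ρ)`. -/
noncomputable def LS (D : Datum) {q : ℕ} (χ : DirichletCharacter ℂ q) (s : ℂ) : ℂ :=
  ∏' p : Nat.Primes, factor D χ s p

section
variable {ι : Type} [Fintype ι]

/-- The product of the powers, with exponents `m i`, of the functions
`L_{S_i}(s + θ_i, π_i × χ, ρ_i)`. -/
noncomputable def product (D : ι → Datum) (m : ι → ℤ) {q : ℕ} (χ : DirichletCharacter ℂ q)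
    (s : ℂ) : ℂ :=
  ∏ i, LS (D i) χ (s + (D i).θ) ^ m i

/-- `tr ρ(A_p) p^(-θ)`, the normalized trace, for `p ∉ S`, and `0` for `p ∈ S`. -/
noncomputable def trace (D : Datum) (p : ℕ) : ℂ :=
  if p ∈ D.S then 0 else (D.ρ.map fun μ => weight (D.A p) μ).sum * (((p : ℝ) ^ (-D.θ) : ℝ) : ℂ)

/-- `∑_p |∑_i m_i tr ρ_i(A_{i,p}) p^(-θ_i)|² p^(-1-ε)`. -/
noncomputable def squares (D : ι → Datum) (m : ι → ℤ) (ε : ℝ) : ℝ :=
  ∑' p : Nat.Primes, ‖∑ i, (m i : ℂ) * trace (D i) p‖ ^ 2 * (p : ℝ) ^ (-(1 + ε))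

/-- The point `1 + iτ`. -/
noncomputable def edge (τ : ℝ) : ℂ := 1 + τ * Complex.I

/-- **Zeros and poles on the edge, over all twists.**  Let `F_χ(s)` be the product of the powers,
with exponents `m i`, of the functions `L_{S_i}(s + θ_i, π_i × χ, ρ_i)` and let `(χ_k, τ_k)` be
finitely many pairs such that no two of them have the same height and equivalent characters.

* (Unconditionally.)  There is a constant `C` such that, for all small `ε > 0`,
  `∑_k (log |F_{χ_k}(1 + ε + iτ_k)|)² ≤ log(1/ε) (∑_p |T(p)|² p^(-1-ε) + C)`, where `T(p)` is the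
  combination, with coefficients `m i`, of the normalized traces of `ρ_i(A_{i,p})`.
* If `F_{χ_k}` has, for every `k`, a meromorphic continuation to a neighbourhood of `1 + iτ_k`, then
  the orders `e_k` of the continuations at these points satisfy
  `∑_k e_k² ≤ liminf_{ε → 0} (∑_p |T(p)|² p^(-1-ε)) / log(1/ε)`, and in particular
  `∑_k e_k² ≤ (∑_i |m_i| dim ρ_i)²`. -/
theorem result (D : ι → Datum) (m : ι → ℤ) {κ : Type} [Fintype κ] (x : κ → Twist)
    (hx : ∀ k l, k ≠ l → ¬ (x k).Same (x l)) :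
    (∃ C : ℝ, ∀ᶠ ε : ℝ in 𝓝[>] 0,
      ∑ k, (Real.log ‖product D m (x k).χ (edge (x k).τ + ε)‖) ^ 2 ≤
        Real.log (1 / ε) * (squares D m ε + C)) ∧
    ∀ φ : κ → ℂ → ℂ, (∀ k, MeromorphicAt (φ k) (edge (x k).τ)) →
      (∀ k, ∀ᶠ s in 𝓝 (edge (x k).τ), 1 < s.re → product D m (x k).χ s = φ k s) →
      ∃ e : κ → ℤ, (∀ k, meromorphicOrderAt (φ k) (edge (x k).τ) = e k) ∧
        (∀ V : ℝ, (∃ᶠ ε : ℝ in 𝓝[>] 0, squares D m ε ≤ V * Real.log (1 / ε)) →
          ∑ k, (e k : ℝ) ^ 2 ≤ V) ∧
        ∑ k, (e k : ℝ) ^ 2 ≤ (∑ i, |(m i : ℝ)| * (D i).ρ.card) ^ 2 := by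
  set y : κ → Pool.Agent.Y719.EL.Tw := fun k => ⟨(x k).q, (x k).hq, (x k).χ, (x k).τ⟩ with hy
  have hy' : ∀ k l, k ≠ l → ¬ (y k).Same (y l) := fun k l hkl => hx k l hkl
  have hb : ∀ i, Pool.Agent.Y719.EL.Bdd (D i).S (D i).A (D i).ρ (D i).θ := fun i => (D i).bound
  refine ⟨?_, fun φ hφ hev => ?_⟩
  · obtain ⟨C, hC⟩ := Pool.Agent.Y719.EL.main_ineq m hb y hy'
    refine ⟨C, ?_⟩
    filter_upwards [hC] with ε h1
    exact h1
  · exact Pool.Agent.Y719.EL.orders m hb y hy' φ hφ hev

end

end Pool.Agent.Results.MP_eea520_nt.EdgeOrdersAllTwists
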