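import Pool.Agent.Y769.Bdry

/-!
# Boundary values of `L_S(s, π, ρ)` for countably many `π` and all `ρ` simultaneously

`G = GSp(2n)`.  The maximal torus of the L-group `GSpin(2n+1, ℂ)` is `(ℂˣ)^(n+1)`, with coordinates
`x_0, x_1, ..., x_n` such that the weights of the spin representation are `x_0 ∏_{i ∈ I} x_i`,
`I ⊆ {1, ..., n}`.  A finite-dimensional representation `ρ` is given by the multiset of its weights,
that is of integer vectors `μ`, and the Satake class of `π_p` by a point `A p` of the torus; then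
`det(1 - ρ(A_p) p^(-s)) = ∏_μ (1 - μ(A_p) p^(-s))`.  Nothing is assumed about the multiset and about
the points `A p`, so the theorem holds in particular for all automorphic representations.
-/

set_option autoImplicit false

namespace Pool.Agent.Results.MP_eea520_nt.EdgeValues

open Filter Topology

/-- The value at the point `x` of the torus of the character with exponents `μ`. -/
noncomputable def weight {n : ℕ} (x : Fin (n + 1) → ℂ) (μ : Fin (n + 1) → ℤ) : ℂ :=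
  ∏ i, x i ^ μ i

/-- The factor at the prime `p` of `L_S(s, π, ρ)`: it is `1` for `p ∈ S` and
`det(1 - ρ(A_p) p^(-s))⁻¹` for `p ∉ S`. -/
noncomputable def factor {n : ℕ} (S : Finset ℕ) (A : ℕ → Fin (n + 1) → ℂ)
    (ρ : Multiset (Fin (n + 1) → ℤ)) (s : ℂ) (p : ℕ) : ℂ :=
  if p ∈ S then 1 else ((ρ.map fun μ => 1 - weight (A p) μ * (p : ℂ) ^ (-s)).prod)⁻¹

/-- The Euler product `L_S(s, π, ρ)`. -/
noncomputable def LS {n : ℕ} (S : Finset ℕ) (A : ℕ → Fin (n + 1) → ℂ)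
    (ρ : Multiset (Fin (n + 1) → ℤ)) (s : ℂ) : ℂ :=
  ∏' p : Nat.Primes, factor S A ρ s p

/-- The point `1 + θ + iτ`. -/
noncomputable def edgePoint (θ τ : ℝ) : ℂ := ((1 + θ : ℝ) : ℂ) + (τ : ℂ) * Complex.I

/-- The angle `|s - s₀| ≤ K Re (s - s₀)` with vertex `s₀ = 1 + θ + iτ` in `Re s > 1 + θ`. -/
def angle (θ τ K : ℝ) : Set ℂ :=
  {s : ℂ | 1 + θ < s.re ∧ ‖s - edgePoint θ τ‖ ≤ K * (s.re - (1 + θ))}

/-- **Boundary values for all `ρ` simultaneously.** -/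
theorem result {ι : Type} [Countable ι] (n : ι → ℕ) (S : ι → Finset ℕ)
    (A : ∀ j, ℕ → Fin (n j + 1) → ℂ)
    (hA : ∀ j, ∀ p : ℕ, p.Prime → p ∉ S j → ∀ i, A j p i ≠ 0) :
    ∃ T : Set ℝ, dimH T = 0 ∧ ∀ j (ρ : Multiset (Fin (n j + 1) → ℤ)) (θ : ℝ),
      (∀ p : ℕ, p.Prime → p ∉ S j → ∀ μ ∈ ρ, ‖weight (A j p) μ‖ ≤ (p : ℝ) ^ θ) →
      ∀ τ, τ ∉ T → ∃ l : ℂ, l ≠ 0 ∧
        Tendsto (fun x : ℕ => ∏ p ∈ Nat.primesBelow x, factor (S j) (A j) ρ (edgePoint θ τ) p)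
          atTop (𝓝 l) ∧
        ∀ K : ℝ, Tendsto (LS (S j) (A j) ρ) (𝓝[angle θ τ K] (edgePoint θ τ)) (𝓝 l) :=
  Pool.Agent.Y769.Bdry.all n S A hA

end Pool.Agent.Results.MP_eea520_nt.EdgeValues
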